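import Mathlib

namespace Pool.Agent.H.MP_d88d3c_co

open Finset Pointwise

variable {α : Type*} [Fintype α] [DecidableEq α]

/-- integer vectors as real vectors -/
def cs (z : α → ℤ) : α → ℝ := fun i => (z i : ℝ)

/-- invariant of the construction -/
def Good (Z : Finset α) (g : ℕ → ℤ) : Prop :=
  ∃ (S : Finset (α → ℤ)) (T : ℕ → Finset (α → ℤ)), 0 ∈ S ∧ (∀ z ∈ S, ∀ a ∈ Z, z a = 0) ∧
    (∀ a, a ∉ Z → Pi.single a (1 : ℝ) ∈ Submodule.span ℝ (cs '' (S : Set (α → ℤ)))) ∧
    (∀ (n : ℕ) z, z ∈ T n ↔ cs z ∈ (n : ℝ) • convexHull ℝ (cs '' (S : Set (α → ℤ)))) ∧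
    ∀ n, ((T n).card : ℤ) = g (n + 2) - 2 * g (n + 1) + g n

theorem cone_mono {E : Type*} [AddCommGroup E] [Module ℝ E] {R : Set E} (hR : Convex ℝ R)
    (h0 : (0 : E) ∈ R) {s t : ℝ} (hs : 0 ≤ s) (hst : s ≤ t) {y : E} (hy : y ∈ s • R) :
    y ∈ t • R := by
  have : t = s + (t - s) := by ring
  rw [this, hR.add_smul hs (by linarith)]
  exact ⟨y, hy, 0, ⟨0, h0, by simp⟩, by simp⟩

theorem cone_add {E : Type*} [AddCommGroup E] [Module ℝ E] {R : Set E} (hR : Convex ℝ R)
    {s t : ℝ} (hs : 0 ≤ s) (ht : 0 ≤ t) {y z : E} (hy : y ∈ s • R) (hz : z ∈ t • R) :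
    y + z ∈ (s + t) • R := by
  rw [hR.add_smul hs ht]
  exact ⟨y, hy, z, hz, rfl⟩

theorem cone_smul {E : Type*} [AddCommGroup E] [Module ℝ E] {R : Set E}
    {s : ℝ} (a : ℝ) {y : E} (hy : y ∈ s • R) : a • y ∈ (a * s) • R := by
  obtain ⟨r, hr, rfl⟩ := hy
  exact ⟨r, hr, by simp [smul_smul]⟩

omit [Fintype α] in
theorem prism {A : Set (α → ℝ)} (c : α) (h0 : (0 : α → ℝ) ∈ A) (hc : ∀ y ∈ A, y c = 0) (t : ℝ)
    (ht : 0 ≤ t) (y : α → ℝ) :
    y ∈ t • convexHull ℝ (A ∪ (fun z => z + Pi.single c 1) '' A ∪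
      {Pi.single c 2, Pi.single c (-1)}) ↔
    0 ≤ min t (min (t + y c) (2 * t - y c)) ∧
      Function.update y c 0 ∈ min t (min (t + y c) (2 * t - y c)) • convexHull ℝ A := by
  obtain ⟨R, hR⟩ : ∃ R, R = convexHull ℝ A := ⟨_, rfl⟩
  obtain ⟨Q, hQ⟩ : ∃ Q, Q = convexHull ℝ (A ∪ (fun z => z + Pi.single c 1) '' A ∪
      {Pi.single c 2, Pi.single c (-1)}) := ⟨_, rfl⟩
  rw [← hR, ← hQ]
  have Rc : Convex ℝ R := hR ▸ convex_convexHull ℝ A
  have Qc : Convex ℝ Q := hQ ▸ convex_convexHull ℝ _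
  have AR : A ⊆ R := hR ▸ subset_convexHull ℝ A
  have R0 : (0 : α → ℝ) ∈ R := AR h0
  have key : ∀ (s : ℝ) (y : α → ℝ), (0 ≤ min s (min (s + y c) (2 * s - y c)) ∧
      Function.update y c 0 ∈ min s (min (s + y c) (2 * s - y c)) • R) ↔
      (0 ≤ s ∧ Function.update y c 0 ∈ s • R) ∧ (0 ≤ s + y c ∧ Function.update y c 0 ∈ (s + y c) • R)
        ∧ (0 ≤ 2 * s - y c ∧ Function.update y c 0 ∈ (2 * s - y c) • R) := by
    intro s y
    constructor
    · rintro ⟨h1, h2⟩
      have a1 := min_le_left s (min (s + y c) (2 * s - y c))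
      have a2 := (min_le_right s (min (s + y c) (2 * s - y c))).trans (min_le_left _ _)
      have a3 := (min_le_right s (min (s + y c) (2 * s - y c))).trans (min_le_right _ _)
      exact ⟨⟨h1.trans a1, cone_mono Rc R0 h1 a1 h2⟩, ⟨h1.trans a2, cone_mono Rc R0 h1 a2 h2⟩,
        ⟨h1.trans a3, cone_mono Rc R0 h1 a3 h2⟩⟩
    · rintro ⟨h1, h2, h3⟩
      rcases min_choice s (min (s + y c) (2 * s - y c)) with h | h
      · rw [h]; exact h1
      · rw [h]
        rcases min_choice (s + y c) (2 * s - y c) with h' | h'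
        · rw [h']; exact h2
        · rw [h']; exact h3
  rw [key]
  have upd : ∀ (a b : ℝ) (y z : α → ℝ), Function.update (a • y + b • z) c 0
      = a • Function.update y c 0 + b • Function.update z c 0 := by
    intro a b y z
    funext i
    by_cases h : i = c
    · subst h; simp
    · simp [h]
  constructor
  · rintro ⟨q, hq, rfl⟩
    have hK : (0 ≤ (1 : ℝ) ∧ Function.update q c 0 ∈ (1 : ℝ) • R) ∧
        (0 ≤ 1 + q c ∧ Function.update q c 0 ∈ (1 + q c) • R)
        ∧ (0 ≤ 2 * 1 - q c ∧ Function.update q c 0 ∈ (2 * 1 - q c) • R) := by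
      rw [hQ] at hq
      refine convexHull_min (t := {q : α → ℝ | (0 ≤ (1 : ℝ) ∧ Function.update q c 0 ∈ (1 : ℝ) • R) ∧
        (0 ≤ 1 + q c ∧ Function.update q c 0 ∈ (1 + q c) • R)
        ∧ (0 ≤ 2 * 1 - q c ∧ Function.update q c 0 ∈ (2 * 1 - q c) • R)}) ?_ ?_ hq
      · have one : ∀ z ∈ A, z ∈ (1 : ℝ) • R := fun z hz => by simpa using AR hz
        have zer : ∀ s : ℝ, (0 : α → ℝ) ∈ s • R := fun s => ⟨0, R0, by simp⟩
        rintro q ((hq | ⟨z, hz, rfl⟩) | hq)
        · have e : Function.update q c 0 = q := by rw [← hc q hq]; simp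
          simp only [Set.mem_ofPred_eq, e, hc q hq]
          exact ⟨⟨by norm_num, one q hq⟩, ⟨by norm_num, cone_mono Rc R0 zero_le_one (by norm_num) (one q hq)⟩,
            ⟨by norm_num, cone_mono Rc R0 zero_le_one (by norm_num) (one q hq)⟩⟩
        · have e : Function.update (z + Pi.single c 1) c 0 = z := by
            funext i
            by_cases h : i = c
            · subst h; simp [hc z hz]
            · simp [h]
          simp only [Set.mem_ofPred_eq, e, Pi.add_apply, hc z hz, Pi.single_eq_same]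
          exact ⟨⟨by norm_num, one z hz⟩, ⟨by norm_num, cone_mono Rc R0 zero_le_one (by norm_num) (one z hz)⟩,
            ⟨by norm_num, cone_mono Rc R0 zero_le_one (by norm_num) (one z hz)⟩⟩
        · have e : ∀ s : ℝ, Function.update (Pi.single c s : α → ℝ) c 0 = 0 := by
            intro s
            funext i
            by_cases h : i = c
            · subst h; simp
            · simp [h]
          rcases hq with rfl | rfl
          · simp only [Set.mem_ofPred_eq, e, Pi.single_eq_same]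
            exact ⟨⟨by norm_num, zer _⟩, ⟨by norm_num, zer _⟩, ⟨by norm_num, zer _⟩⟩
          · simp only [Set.mem_ofPred_eq, e, Pi.single_eq_same]
            exact ⟨⟨by norm_num, zer _⟩, ⟨by norm_num, zer _⟩, ⟨by norm_num, zer _⟩⟩
      · rintro y ⟨y1, y2, y3⟩ z ⟨z1, z2, z3⟩ a b ha hb hab
        simp only [Set.mem_ofPred_eq, upd, Pi.add_apply, Pi.smul_apply, smul_eq_mul]
        have gen : ∀ s t u : ℝ, u = a * s + b * t → (0 ≤ s ∧ Function.update y c 0 ∈ s • R) →
            (0 ≤ t ∧ Function.update z c 0 ∈ t • R) → 0 ≤ u ∧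
            a • Function.update y c 0 + b • Function.update z c 0 ∈ u • R := by
          rintro s t u rfl ⟨h1, h2⟩ ⟨h3, h4⟩
          exact ⟨by positivity, cone_add Rc (by positivity) (by positivity) (cone_smul a h2)
            (cone_smul b h4)⟩
        exact ⟨gen _ _ _ (by linear_combination -hab) y1 z1,
          gen _ _ _ (by linear_combination -hab) y2 z2,
          gen _ _ _ (by linear_combination (-2) * hab) y3 z3⟩
    have e : Function.update (t • q) c 0 = t • Function.update q c 0 := by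
      have := upd t 0 q q
      simpa using this
    obtain ⟨⟨_, k1⟩, ⟨k2, k3⟩, ⟨k4, k5⟩⟩ := hK
    beta_reduce
    rw [e]
    simp only [Pi.smul_apply, smul_eq_mul]
    refine ⟨⟨ht, ?_⟩, ⟨by nlinarith, ?_⟩, ⟨by nlinarith, ?_⟩⟩
    · simpa using cone_smul t k1
    · have := cone_smul t k3
      rwa [show t * (1 + q c) = t + t * q c by ring] at this
    · have := cone_smul t k5
      rwa [show t * (2 * 1 - q c) = 2 * t - t * q c by ring] at this
  · have gen : ∀ z ∈ A ∪ (fun z => z + Pi.single c 1) '' A ∪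
      {Pi.single c 2, Pi.single c (-1)}, z ∈ Q := fun z hz => hQ ▸ subset_convexHull ℝ _ hz
    have q0 : R ⊆ Q := by
      rw [hR]
      exact convexHull_min (fun z hz => gen z (Or.inl (Or.inl hz))) Qc
    have q1 : ∀ r ∈ R, r + Pi.single c 1 ∈ Q := by
      intro r hr
      rw [hR] at hr
      refine convexHull_min (t := {r | r + Pi.single c 1 ∈ Q})
        (fun z hz => gen _ (Or.inl (Or.inr ⟨z, hz, rfl⟩))) ?_ hr
      intro y hy z hz a b ha hb hab
      have := Qc hy hz ha hb hab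
      simp only [Set.mem_ofPred_eq]
      convert this using 1
      have hb' : b = 1 - a := by linarith
      subst hb'
      module
    have q2 : (Pi.single c 2 : α → ℝ) ∈ Q := gen _ (Or.inr (Or.inl rfl))
    have q3 : (Pi.single c (-1) : α → ℝ) ∈ Q := gen _ (Or.inr (Or.inr rfl))
    have ey : y = Function.update y c 0 + y c • (Pi.single c 1 : α → ℝ) := by
      funext i
      by_cases h : i = c
      · subst h; simp
      · simp [h]
    have e2 : (Pi.single c 2 : α → ℝ) = (2 : ℝ) • (Pi.single c 1 : α → ℝ) := by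
      rw [← Pi.single_smul]; simp
    have e3 : (Pi.single c (-1) : α → ℝ) = (-1 : ℝ) • (Pi.single c 1 : α → ℝ) := by
      rw [← Pi.single_smul]; simp
    rintro ⟨⟨h1, r1, hr1, e1⟩, ⟨h2, r2, hr2, f2⟩, ⟨h3, r3, hr3, f3⟩⟩
    beta_reduce at e1 f2 f3
    have comb : ∀ (a b : ℝ) (u v : α → ℝ), 0 ≤ a → 0 ≤ b → u ∈ Q → v ∈ Q → t = a + b →
        y = a • u + b • v → y ∈ t • Q := by
      rintro a b u v ha hb hu hv h4 h5
      rw [h4, h5]
      exact cone_add Qc ha hb ⟨u, hu, rfl⟩ ⟨v, hv, rfl⟩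
    rcases le_total (y c) 0 with h | h
    · refine comb (t + y c) (-y c) r2 _ h2 (by linarith) (q0 hr2) q3 (by ring) ?_
      rw [f2, e3]
      conv_lhs => rw [ey]
      module
    · rcases le_total (y c) t with h' | h'
      · refine comb (t - y c) (y c) r1 _ (by linarith) h (q0 hr1) (q1 r1 hr1) (by ring) ?_
        conv_lhs => rw [ey, ← e1]
        module
      · refine comb (2 * t - y c) (y c - t) _ _ h3 (by linarith) (q1 r3 hr3) q2 (by ring) ?_
        rw [e2]
        conv_lhs => rw [ey, ← f3]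
        module

end Pool.Agent.H.MP_d88d3c_co
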