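import Pool.Agent.H.MP_d88d3c_co.A

namespace Pool.Agent.H.MP_d88d3c_co

open Finset Pointwise

variable {α : Type*} [Fintype α] [DecidableEq α]

theorem sum_split (L : ℕ → ℤ) (n : ℕ) :
    ∑ j ∈ range (3 * n + 1), L (min n (min j (3 * n - j)))
      = ∑ j ∈ range n, L j + n * L n + ∑ j ∈ range (n + 1), L j := by
  rw [show 3 * n + 1 = n + n + (n + 1) by ring, sum_range_add, sum_range_add]
  congr 1
  · congr 1
    · refine sum_congr rfl fun j hj => ?_
      have := mem_range.1 hj
      congr 1
      omega
    · rw [sum_congr rfl (g := fun _ => L n)]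
      · simp
      · intro j hj
        have := mem_range.1 hj
        congr 1
        omega
  · rw [← sum_range_reflect]
    refine sum_congr rfl fun j hj => ?_
    have := mem_range.1 hj
    congr 1
    omega

theorem step {Z : Finset α} {g : ℕ → ℤ} (c : α) (hc : c ∉ Z) (g0 : g 0 = 0) (g1 : g 1 = 0)
    (h : Good (insert c Z) g) : Good Z (fun n => ((n : ℤ) - 1) * g n) := by
  obtain ⟨S, T, h0, hZ, hsp, hT, hcard⟩ := h
  have hA0 : (0 : α → ℝ) ∈ cs '' (S : Set (α → ℤ)) := ⟨0, h0, by funext i; simp [cs]⟩
  have hAc : ∀ y ∈ cs '' (S : Set (α → ℤ)), y c = 0 := by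
    rintro _ ⟨z, hz, rfl⟩
    simp [cs, hZ z hz c (mem_insert_self _ _)]
  have csing : ∀ k : ℤ, cs (Pi.single c k : α → ℤ) = Pi.single c (k : ℝ) := by
    intro k
    funext i
    by_cases h : i = c
    · subst h; simp [cs]
    · simp [cs, h]
  have cadd : ∀ z w : α → ℤ, cs (z + w) = cs z + cs w := by
    intro z w
    funext i
    simp [cs]
  have hS' : cs '' ((S ∪ S.image (fun z => z + Pi.single c 1) ∪
      {Pi.single c 2, Pi.single c (-1)} : Finset (α → ℤ)) : Set (α → ℤ))
      = cs '' (S : Set (α → ℤ)) ∪ (fun z => z + Pi.single c 1) '' (cs '' (S : Set (α → ℤ))) ∪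
      {Pi.single c 2, Pi.single c (-1)} := by
    simp only [coe_union, coe_image, coe_insert, coe_singleton, Set.image_union, Set.image_image,
      Set.image_insert_eq, Set.image_singleton, cadd, csing]
    simp
  have hTc : ∀ n, ∀ z ∈ T n, z c = 0 := by
    intro n z hz
    obtain ⟨r, hr, e⟩ := (hT n z).1 hz
    have : r c = 0 := by
      refine convexHull_min (t := {r : α → ℝ | r c = 0}) hAc ?_ hr
      intro y hy z hz a b _ _ _
      simp only [Set.mem_ofPred_eq] at hy hz ⊢
      simp [hy, hz]
    have e' := congrFun e c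
    simp only [Pi.smul_apply, this, smul_zero, cs] at e'
    exact_mod_cast e'.symm
  refine ⟨S ∪ S.image (fun z => z + Pi.single c 1) ∪ {Pi.single c 2, Pi.single c (-1)},
    fun n => (range (3 * n + 1)).biUnion (fun j => (T (min n (min j (3 * n - j)))).image
      (fun z => Function.update z c ((j : ℤ) - n))), by simp [h0], ?_, ?_, ?_, ?_⟩
  · intro z hz a ha
    have hac : a ≠ c := fun h => hc (h ▸ ha)
    simp only [mem_union, mem_image, mem_insert, mem_singleton] at hz
    rcases hz with (hz | ⟨w, hw, rfl⟩) | rfl | rfl
    · exact hZ z hz a (mem_insert_of_mem ha)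
    · simp [hac, hZ w hw a (mem_insert_of_mem ha)]
    · simp [hac]
    · simp [hac]
  · intro a ha
    rw [hS']
    by_cases hac : a = c
    · subst hac
      refine Submodule.subset_span (Or.inl (Or.inr ⟨0, hA0, by simp⟩))
    · exact Submodule.span_mono (fun y hy => Or.inl (Or.inl hy)) (hsp a (by simp [hac, ha]))
  · intro n z
    rw [hS', prism c hA0 hAc n (Nat.cast_nonneg n)]
    simp only [mem_biUnion, mem_range, mem_image]
    have cup : ∀ w : α → ℤ, Function.update (cs w) c 0 = cs (Function.update w c 0) := by
      intro w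
      funext i
      by_cases h : i = c
      · subst h; simp [cs]
      · simp [cs, h]
    have hmin : ∀ j : ℕ, j < 3 * n + 1 → z c = (j : ℤ) - n →
        min (n : ℝ) (min (n + cs z c) (2 * n - cs z c)) = ((min n (min j (3 * n - j)) : ℕ) : ℝ) := by
      intro j hj hz
      have : cs z c = (j : ℝ) - n := by simp [cs, hz]
      rw [this]
      push_cast [Nat.cast_sub (show j ≤ 3 * n by omega)]
      congr 2 <;> ring
    constructor
    · rintro ⟨j, hj, w, hw, rfl⟩
      rw [hmin j hj (by simp), cup]
      refine ⟨Nat.cast_nonneg _, ?_⟩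
      rw [Function.update_idem, ← hTc _ w hw, Function.update_eq_self]
      exact (hT _ _).1 hw
    · rintro ⟨h1, h2⟩
      simp only [le_min_iff, cs] at h1
      have h3 : (0 : ℤ) ≤ n + z c := by exact_mod_cast h1.2.1
      have h4 : (0 : ℤ) ≤ 2 * n - z c := by exact_mod_cast h1.2.2
      obtain ⟨j, hj⟩ := Int.eq_ofNat_of_zero_le h3
      refine ⟨j, by omega, Function.update z c 0, ?_, ?_⟩
      · rw [hmin j (by omega) (by omega), cup] at h2
        exact (hT _ _).2 h2
      · rw [Function.update_idem, show (j : ℤ) - n = z c by omega, Function.update_eq_self]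
  · intro n
    rw [card_biUnion]
    · have e : ∀ j : ℕ, ((T (min n (min j (3 * n - j)))).image
          (fun z => Function.update z c ((j : ℤ) - n))).card
          = (T (min n (min j (3 * n - j)))).card := by
        intro j
        refine card_image_of_injOn fun z hz w hw hzw => ?_
        funext i
        by_cases h : i = c
        · subst h; rw [hTc _ z hz, hTc _ w hw]
        · simpa [h] using congrFun hzw i
      simp only [e]
      push_cast
      rw [sum_split (fun k => ((T k).card : ℤ)) n]
      have tel : ∀ k, ∑ j ∈ range k, ((T j).card : ℤ) = g (k + 1) - g k := by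
        intro k
        induction k with
        | zero => simp [g0, g1]
        | succ k ih => rw [sum_range_succ, ih, hcard]; ring
      rw [tel, tel, hcard]
      ring
    · intro j _ k _ hjk
      rw [Function.onFun, disjoint_left]
      intro z hz hz'
      simp only [mem_image] at hz hz'
      obtain ⟨w, _, rfl⟩ := hz
      obtain ⟨w', _, e⟩ := hz'
      have := congrFun e c
      simp only [Function.update_self] at this
      omega

end Pool.Agent.H.MP_d88d3c_co
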