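import Pool.Agent.H.MP_d88d3c_co.B

namespace Pool.Agent.H.MP_d88d3c_co

open Finset Pointwise

variable {α : Type*} [Fintype α] [DecidableEq α] [PartialOrder α]

/-- monotone integer vectors, zero on `J`, in `[lo, hi]` off `J` -/
noncomputable def BB (J : Finset α) (lo hi : ℤ) : Finset (α → ℤ) := by
  classical
  exact (Fintype.piFinset (fun a => if a ∈ J then {0} else Icc lo hi)).filter Monotone

theorem mem_BB {J : Finset α} {lo hi : ℤ} {x : α → ℤ} :
    x ∈ BB J lo hi ↔ (∀ a, a ∉ J → lo ≤ x a ∧ x a ≤ hi) ∧ (∀ a ∈ J, x a = 0) ∧ Monotone x := by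
  unfold BB
  simp only [mem_filter, Fintype.mem_piFinset]
  constructor
  · rintro ⟨h1, h2⟩
    refine ⟨fun a ha => ?_, fun a ha => ?_, h2⟩
    · simpa [ha] using h1 a
    · simpa [ha] using h1 a
  · rintro ⟨h1, h2, h3⟩
    refine ⟨fun a => ?_, h3⟩
    by_cases ha : a ∈ J
    · simp [ha, h2 a ha]
    · simp [ha, h1 a ha]

/-- isolated elements -/
def Iso (c : α) : Prop := ∀ b, (b ≤ c ∨ c ≤ b) → b = c

theorem card_BB_insert {J : Finset α} {c : α} (hc : Iso c) (hJ : c ∉ J) (n : ℕ) :
    (BB J 0 n).card = (n + 1) * (BB (insert c J) 0 n).card := by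
  have : (n + 1) = (Icc (0 : ℤ) n).card := by simp
  rw [this, ← card_product]
  have mon : ∀ (x : α → ℤ) (k : ℤ), Monotone x → Monotone (Function.update x c k) := by
    intro x k hx a b hab
    by_cases ha : a = c
    · have := hc b (Or.inr (ha ▸ hab))
      rw [ha, this]
    · by_cases hb : b = c
      · exact absurd (hc a (Or.inl (hb ▸ hab))) ha
      · simpa [ha, hb] using hx hab
  refine card_bij' (fun x _ => (x c, Function.update x c 0))
    (fun p _ => Function.update p.2 c p.1) ?_ ?_ ?_ ?_
  · intro x hx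
    rw [mem_BB] at hx
    simp only [mem_product, mem_Icc, mem_BB]
    refine ⟨hx.1 c hJ, fun a ha => ?_, fun a ha => ?_, mon x 0 hx.2.2⟩
    · simp only [mem_insert, not_or] at ha
      simpa [ha.1] using hx.1 a ha.2
    · by_cases h : a = c
      · simp [h]
      · simpa [h] using hx.2.1 a (by simpa [h] using ha)
  · rintro ⟨k, x⟩ hp
    simp only [mem_product, mem_Icc, mem_BB] at hp ⊢
    obtain ⟨h1, h2, h3, h4⟩ := hp
    refine ⟨fun a ha => ?_, fun a ha => ?_, mon x k h4⟩
    · by_cases h : a = c
      · simpa [h] using h1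
      · simpa [h] using h2 a (by simp [h, ha])
    · have h : a ≠ c := fun h => hJ (h ▸ ha)
      simpa [h] using h3 a (mem_insert_of_mem ha)
  · intro x _
    simp
  · rintro ⟨k, x⟩ hp
    simp only [mem_product, mem_Icc, mem_BB] at hp
    have := hp.2.2.1 c (mem_insert_self _ _)
    simp [← this]

theorem card_BB_shift {I : Finset α} (hI : ∀ c, c ∈ I ↔ Iso c) (lo hi : ℤ) :
    (BB I (lo + 1) (hi + 1)).card = (BB I lo hi).card := by
  have mon : ∀ (x : α → ℤ) (k : ℤ), Monotone x →
      Monotone (fun a => if a ∈ I then 0 else x a + k) := by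
    intro x k hx a b hab
    by_cases ha : a ∈ I
    · have := (hI a).1 ha b (Or.inr hab)
      rw [this]
    · by_cases hb : b ∈ I
      · exact absurd ((hI b).1 hb a (Or.inl hab) ▸ hb) ha
      · simpa [ha, hb] using hx hab
  refine card_bij' (fun x _ a => if a ∈ I then 0 else x a + (-1))
    (fun x _ a => if a ∈ I then 0 else x a + 1) ?_ ?_ ?_ ?_
  · intro x hx
    rw [mem_BB] at hx ⊢
    refine ⟨fun a ha => ?_, fun a ha => by simp [ha], mon x _ hx.2.2⟩
    have := hx.1 a ha
    simp only [ha, if_false]
    omega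
  · intro x hx
    rw [mem_BB] at hx ⊢
    refine ⟨fun a ha => ?_, fun a ha => by simp [ha], mon x _ hx.2.2⟩
    have := hx.1 a ha
    simp only [ha, if_false]
    omega
  · intro x hx
    rw [mem_BB] at hx
    funext a
    by_cases ha : a ∈ I
    · simp [ha, hx.2.1 a ha]
    · simp [ha]
  · intro x hx
    rw [mem_BB] at hx
    funext a
    by_cases ha : a ∈ I
    · simp [ha, hx.2.1 a ha]
    · simp [ha]

open Classical in
/-- projection along the all-ones vector and the indicator of the maximal elements -/
noncomputable def pr {K : Type*} [AddCommGroup K] (I : Finset α) (m M : α) (x : α → K) : α → K :=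
  fun i => if i ∈ I then 0 else if IsMax i then x i - x M else x i - x m

omit [DecidableEq α] in
theorem up_max (a : α) : ∃ b, a ≤ b ∧ IsMax b := by
  obtain ⟨b, hb, hb'⟩ := Finite.exists_le_maximal (p := fun _ : α => True) (a := a) trivial
  exact ⟨b, hb, fun c hc => hb'.2 trivial hc⟩

theorem lowest {I : Finset α} (hI : ∀ c, c ∈ I ↔ Iso c) {m : α} (hm : m ∉ I) (x : α → ℤ)
    (hx : Monotone x) : ∃ a, a ∉ I ∧ ¬ IsMax a ∧ ∀ b, b ∉ I → x a ≤ x b := by
  obtain ⟨a, ha, ha'⟩ := exists_min_image (univ.filter (· ∉ I)) x ⟨m, by simpa using hm⟩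
  simp only [mem_filter, mem_univ, true_and] at ha ha'
  by_cases h : IsMax a
  · have h2 : ¬ Iso a := fun h => ha ((hI a).2 h)
    unfold Iso at h2
    push Not at h2
    obtain ⟨b, hb, hb'⟩ := h2
    have hba : b ≤ a := hb.elim id (fun h' => h h')
    refine ⟨b, fun h3 => hb' ((hI b).1 h3 a (Or.inr hba)).symm,
      fun h3 => hb' (le_antisymm hba (h3 hba)), fun e he => (hx hba).trans (ha' e he)⟩
  · exact ⟨a, ha, h, ha'⟩

theorem highest {I : Finset α} (hI : ∀ c, c ∈ I ↔ Iso c) {m : α} (hm : m ∉ I) (x : α → ℤ)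
    (hx : Monotone x) : ∃ a, a ∉ I ∧ IsMax a ∧ ∀ b, b ∉ I → x b ≤ x a := by
  obtain ⟨a, ha, ha'⟩ := exists_max_image (univ.filter (· ∉ I)) x ⟨m, by simpa using hm⟩
  simp only [mem_filter, mem_univ, true_and] at ha ha'
  obtain ⟨b, hb, hb'⟩ := up_max a
  exact ⟨b, fun h3 => ha ((hI b).1 h3 a (Or.inl hb) ▸ h3), hb',
    fun e he => (ha' e he).trans (hx hb)⟩

theorem card_pr {I : Finset α} (hI : ∀ c, c ∈ I ↔ Iso c) {m M : α} (hm : ¬ IsMax m) (hM : IsMax M)
    (hM' : M ∉ I) (n : ℕ) :
    (((BB I 0 n).image (pr I m M)).card : ℤ)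
      = (BB I 0 n).card - 2 * (BB I 0 (n - 1)).card + (BB I 0 (n - 2)).card := by
  classical
  have hmI : m ∉ I := fun h => hm fun b hb => ((hI m).1 h b (Or.inr hb)).le
  have e1 : (BB I 0 n).image (pr I m M)
      = ((BB I 0 n) \ (BB I 1 n ∪ BB I 0 (n - 1))).image (pr I m M) := by
    refine Subset.antisymm ?_ (image_subset_image sdiff_subset)
    intro y hy
    obtain ⟨x, hx, rfl⟩ := mem_image.1 hy
    rw [mem_BB] at hx
    obtain ⟨h1, h2, h3⟩ := hx
    obtain ⟨a, a1, a2, a3⟩ := lowest hI hM' x h3
    obtain ⟨b, b1, b2, b3⟩ := highest hI hM' x h3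
    have ha := h1 a a1
    have hb := h1 b b1
    refine mem_image.2 ⟨fun i => if i ∈ I then 0 else if IsMax i then x i - x b + n else x i - x a,
      ?_, ?_⟩
    · simp only [mem_sdiff, mem_union, mem_BB, not_or]
      refine ⟨⟨fun e he => ?_, fun e he => by simp [he], fun e f hef => ?_⟩, fun h => ?_, fun h => ?_⟩
      · have := h1 e he
        have := a3 e he
        have := b3 e he
        simp only [he, if_false]
        split_ifs <;> omega
      · by_cases he : e ∈ I
        · rw [(hI e).1 he f (Or.inr hef)]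
        · have hf : f ∉ I := fun hf => he ((hI f).1 hf e (Or.inl hef) ▸ hf)
          by_cases he' : IsMax e
          · rw [le_antisymm hef (he' hef)]
          · have := h3 hef
            simp only [he, hf, he', if_false]
            split_ifs <;> omega
      · have := h.1 a a1
        simp [a1, a2] at this
      · have := h.1 b b1
        simp [b1, b2] at this
    · funext i
      unfold pr
      simp only [hM, hM', hm, hmI, if_true, if_false]
      split_ifs <;> ring
  rw [e1, card_image_of_injOn]
  · have s1 : BB I 1 n ∪ BB I 0 (n - 1) ⊆ BB I 0 n := by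
      intro x hx
      simp only [mem_union, mem_BB] at hx ⊢
      rcases hx with hx | hx
      · exact ⟨fun a ha => by have := hx.1 a ha; omega, hx.2⟩
      · exact ⟨fun a ha => by have := hx.1 a ha; omega, hx.2⟩
    have s2 : BB I 1 n ∩ BB I 0 (n - 1) = BB I 1 (n - 1) := by
      ext x
      simp only [mem_inter, mem_BB]
      constructor
      · rintro ⟨h1, h2⟩
        exact ⟨fun a ha => by have := h1.1 a ha; have := h2.1 a ha; omega, h1.2⟩
      · intro h
        exact ⟨⟨fun a ha => by have := h.1 a ha; omega, h.2⟩,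
          ⟨fun a ha => by have := h.1 a ha; omega, h.2⟩⟩
    have s3 := card_sdiff_add_card_eq_card s1
    have s4 := card_union_add_card_inter (BB I 1 n) (BB I 0 (n - 1))
    have s5 := card_BB_shift hI 0 (n - 1)
    have s6 := card_BB_shift hI 0 (n - 2)
    rw [s2] at s4
    rw [zero_add, sub_add_cancel] at s5
    rw [zero_add, show (n : ℤ) - 2 + 1 = n - 1 by ring] at s6
    omega
  · have half : ∀ x y : α → ℤ, x ∈ (BB I 0 n) \ (BB I 1 n ∪ BB I 0 (n - 1)) → y ∈ BB I 0 n →
        pr I m M x = pr I m M y → x m ≤ y m ∧ y M ≤ x M := by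
      intro x y hx hy e
      simp only [mem_sdiff, mem_union, mem_BB, not_or] at hx hy
      obtain ⟨⟨h1, h2, h3⟩, h4, h5⟩ := hx
      obtain ⟨a, a1, a2, a3⟩ := lowest hI hM' x h3
      obtain ⟨b, b1, b2, b3⟩ := highest hI hM' x h3
      have ea := congrFun e a
      have eb := congrFun e b
      unfold pr at ea eb
      simp only [a1, a2, b1, b2, if_true, if_false] at ea eb
      have ya := hy.1 a a1
      have yb := hy.1 b b1
      have xa : x a ≤ 0 := by
        by_contra h
        exact h4 ⟨fun f hf => by have := a3 f hf; have := h1 f hf; omega, h2, h3⟩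
      have xb : n ≤ x b := by
        by_contra h
        exact h5 ⟨fun f hf => by have := b3 f hf; have := h1 f hf; omega, h2, h3⟩
      omega
    intro x hx y hy e
    have k1 := half x y hx (mem_sdiff.1 hy).1 e
    have k2 := half y x hy (mem_sdiff.1 hx).1 e.symm
    have hx' := mem_BB.1 (mem_sdiff.1 hx).1
    have hy' := mem_BB.1 (mem_sdiff.1 hy).1
    funext i
    have ei := congrFun e i
    unfold pr at ei
    by_cases hi : i ∈ I
    · rw [hx'.2.1 i hi, hy'.2.1 i hi]
    · simp only [hi, if_false] at ei
      split_ifs at ei <;> omega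

open Classical in
theorem ind_mem {J : Finset α} (p : α → Prop) (hp : ∀ a b, a ≤ b → p a → p b)
    (hJ : ∀ a ∈ J, ¬ p a) : (fun a => if p a then (1 : ℤ) else 0) ∈ BB J 0 1 := by
  rw [mem_BB]
  refine ⟨fun a _ => by split_ifs <;> simp, fun a ha => by simp [hJ a ha], fun a b hab => ?_⟩
  have := hp a b hab
  beta_reduce
  split_ifs <;> tauto

theorem base {I : Finset α} (hI : ∀ c, c ∈ I ↔ Iso c) {m M : α} (hm : ¬ IsMax m) (hM : IsMax M)
    (hM' : M ∉ I) :
    Good (insert m (insert M I)) (fun k => ((BB I 0 ((k : ℤ) - 2)).card : ℤ)) := by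
  classical
  have hmI : m ∉ I := fun h => hm fun b hb => ((hI m).1 h b (Or.inr hb)).le
  have cpr : ∀ x : α → ℤ, cs (pr I m M x) = pr I m M (cs x) := by
    intro x
    funext i
    unfold pr cs
    beta_reduce
    split_ifs <;> simp
  have padd : ∀ (x y : α → ℝ) (a b : ℝ), pr I m M (a • x + b • y) = a • pr I m M x + b • pr I m M y := by
    intro x y a b
    funext i
    unfold pr
    simp only [Pi.add_apply, Pi.smul_apply, smul_eq_mul]
    split_ifs <;> ring
  refine ⟨(BB I 0 1).image (pr I m M), fun n => (BB I 0 n).image (pr I m M), ?_, ?_, ?_, ?_, ?_⟩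
  · refine mem_image.2 ⟨0, mem_BB.2 ⟨by simp, by simp, monotone_const⟩, ?_⟩
    funext i
    simp [pr]
  · intro z hz a ha
    obtain ⟨x, _, rfl⟩ := mem_image.1 hz
    simp only [mem_insert] at ha
    unfold pr
    rcases ha with rfl | rfl | ha
    · simp [hm]
    · simp [hM]
    · simp [ha]
  · intro a ha
    simp only [mem_insert, not_or] at ha
    have i1 := ind_mem (J := I) (fun b => a ≤ b) (fun _ _ h h' => h'.trans h)
      (fun b hb h => ha.2.2 ((hI b).1 hb a (Or.inl h) ▸ hb))
    have i2 := ind_mem (J := I) (fun b => a < b) (fun _ _ h h' => h'.trans_le h)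
      (fun b hb h => ha.2.2 ((hI b).1 hb a (Or.inl h.le) ▸ hb))
    have j1 := Submodule.subset_span (R := ℝ) (Set.mem_image_of_mem cs
      (mem_coe.2 (mem_image_of_mem (pr I m M) i1)))
    have j2 := Submodule.subset_span (R := ℝ) (Set.mem_image_of_mem cs
      (mem_coe.2 (mem_image_of_mem (pr I m M) i2)))
    convert Submodule.sub_mem _ j1 j2 using 1
    have d : ∀ b, ((if a ≤ b then (1 : ℤ) else 0 : ℤ) : ℝ) - ((if a < b then (1 : ℤ) else 0 : ℤ) : ℝ)
        = (Pi.single a 1 : α → ℝ) b := by
      intro b
      by_cases h : b = a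
      · subst h; simp
      · have : a < b ↔ a ≤ b := ⟨le_of_lt, fun h' => lt_of_le_of_ne h' (Ne.symm h)⟩
        simp [h, this]
    funext i
    have d1 := d i
    have d2 := d m
    have d3 := d M
    rw [Pi.single_eq_of_ne (Ne.symm ha.1)] at d2
    rw [Pi.single_eq_of_ne (Ne.symm ha.2.1)] at d3
    rw [cpr, cpr]
    unfold pr cs
    simp only [Pi.sub_apply]
    by_cases hi : i ∈ I
    · have : i ≠ a := fun h => ha.2.2 (h ▸ hi)
      simp [hi, this]
    · by_cases hi' : IsMax i
      · simp only [hi, hi', if_true, if_false]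
        linarith
      · simp only [hi, hi', if_false]
        linarith
  · intro n z
    obtain ⟨R, hR⟩ : ∃ R, R = convexHull ℝ (cs '' (((BB I 0 1).image (pr I m M) :
      Finset (α → ℤ)) : Set (α → ℤ))) := ⟨_, rfl⟩
    rw [← hR]
    have Rc : Convex ℝ R := hR ▸ convex_convexHull ℝ _
    have AR : ∀ x ∈ BB I 0 1, cs (pr I m M x) ∈ R := fun x hx =>
      hR ▸ subset_convexHull ℝ _ (Set.mem_image_of_mem cs (mem_coe.2 (mem_image_of_mem _ hx)))
    constructor
    · intro hz
      obtain ⟨x, hx, rfl⟩ := mem_image.1 hz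
      clear hz
      induction n generalizing x with
      | zero =>
        have : x = 0 := by
          funext a
          rw [mem_BB] at hx
          by_cases ha : a ∈ I
          · exact hx.2.1 a ha
          · have := hx.1 a ha
            simp only [Pi.zero_apply]
            omega
        subst this
        exact ⟨_, AR 0 (mem_BB.2 ⟨by simp, by simp, monotone_const⟩), by
          funext i; simp [cs, pr]⟩
      | succ n ih =>
        rw [mem_BB] at hx
        have i1 := ind_mem (J := I) (fun b => (n : ℤ) < x b) (fun _ _ h h' => h'.trans_le (hx.2.2 h))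
          (fun b hb h => by rw [hx.2.1 b hb] at h; omega)
        have i2 : (fun b => min (x b) n) ∈ BB I 0 n := by
          rw [mem_BB]
          refine ⟨fun a ha => ?_, fun a ha => ?_, fun a b hab => min_le_min_right _ (hx.2.2 hab)⟩
          · have := hx.1 a ha
            omega
          · rw [hx.2.1 a ha]; omega
        have := cone_add Rc (Nat.cast_nonneg n) zero_le_one (ih _ i2) ⟨_, AR _ i1, rfl⟩
        push_cast
        convert this using 1
        rw [cpr, cpr, cpr]
        beta_reduce
        rw [← one_smul ℝ (pr I m M (cs fun b => min (x b) n)), ← padd]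
        congr 1
        funext a
        simp only [cs, Pi.add_apply, one_smul]
        have : x a = min (x a) n + if (n : ℤ) < x a then 1 else 0 := by
          by_cases ha : a ∈ I
          · rw [hx.2.1 a ha]; split_ifs <;> omega
          · have := hx.1 a ha
            split_ifs <;> omega
        exact_mod_cast this
    · rintro ⟨r, hr, e⟩
      obtain ⟨x, ⟨x1, x2, x3⟩, rfl⟩ : r ∈ pr I m M '' {x : α → ℝ | (∀ a, 0 ≤ x a ∧ x a ≤ 1) ∧
          (∀ a ∈ I, x a = 0) ∧ Monotone x} := by
        rw [hR] at hr
        refine convexHull_min ?_ ?_ hr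
        · rintro _ ⟨_, hw, rfl⟩
          obtain ⟨w, hw', rfl⟩ := mem_image.1 (mem_coe.1 hw)
          rw [mem_BB] at hw'
          refine ⟨cs w, ⟨fun a => ?_, fun a ha => by simp [cs, hw'.2.1 a ha], fun a b hab => ?_⟩,
            (cpr w).symm⟩
          · unfold cs
            by_cases ha : a ∈ I
            · simp [hw'.2.1 a ha]
            · exact_mod_cast hw'.1 a ha
          · unfold cs
            exact_mod_cast hw'.2.2 hab
        · rintro _ ⟨x, ⟨x1, x2, x3⟩, rfl⟩ _ ⟨y, ⟨y1, y2, y3⟩, rfl⟩ a b ha hb hab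
          refine ⟨a • x + b • y, ⟨fun i => ?_, fun i hi => by simp [x2 i hi, y2 i hi],
            fun i j hij => ?_⟩, padd x y a b⟩
          · simp only [Pi.add_apply, Pi.smul_apply, smul_eq_mul]
            have := x1 i
            have := y1 i
            constructor <;> nlinarith
          · simp only [Pi.add_apply, Pi.smul_apply, smul_eq_mul]
            have := x3 hij
            have := y3 hij
            nlinarith
      have hn : (0 : ℝ) ≤ n := Nat.cast_nonneg n
      refine mem_image.2 ⟨fun a => ⌊(n : ℝ) * x a⌋, mem_BB.2 ⟨fun a _ => ?_, fun a ha => by simp [x2 a ha],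
        fun a b hab => Int.floor_mono (mul_le_mul_of_nonneg_left (x3 hab) hn)⟩, ?_⟩
      · have := x1 a
        refine ⟨Int.floor_nonneg.2 (mul_nonneg hn this.1), ?_⟩
        have h2 : (n : ℝ) * x a ≤ ((n : ℤ) : ℝ) := by push_cast; nlinarith
        simpa using Int.floor_mono h2
      · funext i
        have ei := congrFun e i
        simp only [Pi.smul_apply, smul_eq_mul, cs] at ei
        unfold pr at ei ⊢
        beta_reduce
        split_ifs at ei ⊢
        · rw [mul_zero] at ei
          exact_mod_cast ei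
        · rw [show (n : ℝ) * x i = n * x M + z i by linarith, Int.floor_add_intCast]
          ring
        · rw [show (n : ℝ) * x i = n * x m + z i by linarith, Int.floor_add_intCast]
          ring
  · intro n
    rw [card_pr hI hm hM hM']
    push_cast
    rw [show (n : ℤ) + 2 - 2 = n by ring, show (n : ℤ) + 1 - 2 = n - 1 by ring]

theorem final {a b : α} (hab : a < b) : ∃ m M : α, m ≠ M ∧
    Good {m, M} (fun k => ((BB (∅ : Finset α) 0 ((k : ℤ) - 2)).card : ℤ)) := by
  classical
  obtain ⟨M, hM, hM'⟩ := up_max b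
  obtain ⟨I, hI⟩ : ∃ I : Finset α, ∀ c, c ∈ I ↔ Iso c := ⟨univ.filter Iso, by simp⟩
  have ha : ¬ IsMax a := hab.not_isMax
  have haI : a ∉ I := fun h => hab.ne' ((hI a).1 h b (Or.inr hab.le))
  have hMI : M ∉ I := fun h => (hab.trans_le hM).ne ((hI M).1 h a (Or.inl (hab.le.trans hM)))
  refine ⟨a, M, (hab.trans_le hM).ne, ?_⟩
  have key : ∀ J : Finset α, J ⊆ I → Good (insert a (insert M (I \ J)))
      (fun k => ((BB (I \ J) 0 ((k : ℤ) - 2)).card : ℤ)) := by
    intro J
    induction J using Finset.induction_on with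
    | empty => intro _; simpa using base hI ha hM' hMI
    | insert c J hc ih =>
      intro hs
      have hcI : c ∈ I := hs (mem_insert_self _ _)
      have e : I \ J = insert c (I \ insert c J) := by
        ext x
        simp only [mem_sdiff, mem_insert, not_or]
        by_cases h : x = c
        · simp [h, hcI, hc]
        · simp [h]
      have ih' := ih ((subset_insert _ _).trans hs)
      have emp : ∀ (K : Finset α) (t : ℤ), t < 0 → K ⊆ I → (BB K 0 t).card = 0 := by
        intro K t ht hK
        rw [card_eq_zero, eq_empty_iff_forall_notMem]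
        intro x hx
        have := (mem_BB.1 hx).1 a (fun h => haI (hK h))
        omega
      have e2 : insert a (insert M (I \ J)) = insert c (insert a (insert M (I \ insert c J))) := by
        rw [e]
        ext x
        simp only [mem_insert]
        tauto
      rw [e2] at ih'
      have := step c (by
        simp only [mem_insert, mem_sdiff, not_or]
        exact ⟨fun h => haI (h ▸ hcI), fun h => hMI (h ▸ hcI), by simp⟩)
        (by simp [emp _ _ _ sdiff_subset]) (by simp [emp _ _ _ sdiff_subset]) ih'
      convert this using 2 with k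
      obtain _ | _ | k := k
      · simp [emp _ _ _ sdiff_subset]
      · simp [emp _ _ _ sdiff_subset]
      · have h := card_BB_insert (J := I \ insert c J) ((hI c).1 hcI) (by simp) k
        rw [← e] at h
        push_cast
        rw [show (k : ℤ) + 1 + 1 - 2 = k by ring, h]
        push_cast
        ring
  simpa using key I subset_rfl

end Pool.Agent.H.MP_d88d3c_co
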